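import Mathlib

set_option autoImplicit false

namespace Pool.Agent.Work.MP_c9087a_co

/-- The chromatic number (of a finite graph) as a natural number. -/
noncomputable def chi {V : Type*} (G : SimpleGraph V) : ℕ := G.chromaticNumber.toNat

/-- The discrepancy of the proper colouring `σ` of `G`: the maximum over all (nonempty) induced
subgraphs `H = G[S]` of the number of colours of `σ` on `S` minus the chromatic number of `H`. -/
noncomputable def colDisc {V : Type*} (G : SimpleGraph V) (σ : G.Coloring ℕ) : ℤ :=
  sSup {x : ℤ | ∃ S : Finset V, S.Nonempty ∧
    x = ((S.image σ).card : ℤ) - (chi (G.induce (S : Set V)) : ℤ)}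

/-- The chromatic discrepancy of `G`: the minimum over all proper colourings. -/
noncomputable def discrepancy {V : Type*} (G : SimpleGraph V) : ℤ :=
  sInf (Set.range (colDisc G))

end Pool.Agent.Work.MP_c9087a_co
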