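import Mathlib

set_option autoImplicit false

namespace Pool.Agent.Work.MP_c9087a_co

variable {V : Type*}

/-- there is a path on exactly `m` vertices inside `W` from `u` to `v` -/
def IsP (G : SimpleGraph V) (W : Set V) (m : ℕ) (u v : V) : Prop :=
  ∃ p : ℕ → V, (∀ i < m, ∀ j < m, p i = p j → i = j) ∧
    (∀ i, i + 1 < m → G.Adj (p i) (p (i + 1))) ∧ (∀ i < m, p i ∈ W) ∧ p 0 = u ∧ p (m - 1) = v

lemma IsP.snoc {G : SimpleGraph V} {W W' : Set V} {m : ℕ} {u v x : V} (h : IsP G W (m + 1) u v)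
    (hvx : G.Adj v x) (hx : x ∉ W) (hW : W ⊆ W') (hx' : x ∈ W') : IsP G W' (m + 2) u x := by
  obtain ⟨p, h1, h2, h3, h4, h5⟩ := h
  have hne : ∀ i < m + 1, p i ≠ x := fun i hi he => hx (he ▸ h3 i hi)
  refine ⟨fun i => if i < m + 1 then p i else x, ?_, ?_, ?_, ?_, ?_⟩
  · intro i hi j hj hij
    by_cases hi' : i < m + 1 <;> by_cases hj' : j < m + 1 <;> simp only [hi', hj', if_true, if_false] at hij
    · exact h1 i hi' j hj' hij
    · exact absurd hij (hne i hi')
    · exact absurd hij.symm (hne j hj')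
    · omega
  · intro i hi
    by_cases hi' : i + 1 < m + 1
    · have : i < m + 1 := by omega
      simp only [hi', this, if_true]
      exact h2 i hi'
    · have h6 : i = m := by omega
      subst h6
      simp only [Nat.lt_irrefl, if_false, Nat.lt_succ_self, if_true]
      rw [Nat.add_sub_cancel] at h5
      rw [h5]; exact hvx
  · intro i hi
    by_cases hi' : i < m + 1 <;> simp only [hi', if_true, if_false]
    · exact hW (h3 i hi')
    · exact hx'
  · simp only [Nat.succ_pos, if_true]; exact h4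
  · have : ¬ (m + 2 - 1 < m + 1) := by omega
    simp only [this, if_false]

lemma IsP.mono {G : SimpleGraph V} {W W' : Set V} {m : ℕ} {u v : V} (h : IsP G W m u v)
    (hW : W ⊆ W') : IsP G W' m u v := by
  obtain ⟨p, h1, h2, h3, h4⟩ := h
  exact ⟨p, h1, h2, fun i hi => hW (h3 i hi), h4⟩

lemma IsP.mem_right {G : SimpleGraph V} {W : Set V} {m : ℕ} {u v : V} (h : IsP G W (m + 1) u v) :
    v ∈ W := by
  obtain ⟨p, h1, h2, h3, h4, h5⟩ := h
  rw [← h5]; exact h3 _ (by omega)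

/-- The key lemma. -/
theorem key [Finite V] (G : SimpleGraph V) (m : ℕ) :
    ∀ (C D : Set V) (g : V → ℕ), Disjoint C D → (∀ d ∈ D, g d < m) →
      (∀ d ∈ D, ∀ d' ∈ D, G.Adj d d' → g d ≠ g d') →
      (∀ u ∈ C, ∀ v ∈ C, ¬ IsP G (C ∪ D) (m + 2) u v) →
      ∃ ψ : V → ℕ, (∀ w ∈ C ∪ D, ψ w < m + 1) ∧
        (∀ w ∈ C ∪ D, ∀ w' ∈ C ∪ D, G.Adj w w' → ψ w ≠ ψ w') ∧
        ∀ w ∈ C ∪ D, ψ w = m → ∃ u ∈ C, IsP G (C ∪ D) (m + 1) u w := by
  induction m with
  | zero =>
    intro C D g hCD hg hgp hno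
    have hD : ∀ w ∈ C ∪ D, w ∈ C := by
      intro w hw
      rcases hw with hw | hw
      · exact hw
      · exact absurd (hg w hw) (Nat.not_lt_zero _)
    refine ⟨fun _ => 0, fun w _ => Nat.zero_lt_one, ?_, ?_⟩
    · intro w hw w' hw' hadj _
      refine hno w (hD w hw) w' (hD w' hw') ⟨fun i => if i = 0 then w else w', ?_, ?_, ?_, ?_, ?_⟩
      · intro i hi j hj hij
        have hne : w ≠ w' := hadj.ne
        by_cases hi0 : i = 0 <;> by_cases hj0 : j = 0 <;> simp only [hi0, hj0, if_true, if_false] at hij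
        · omega
        · exact absurd hij hne
        · exact absurd hij.symm hne
        · omega
      · intro i hi
        have : i = 0 := by omega
        subst this
        simpa using hadj
      · intro i hi
        by_cases hi0 : i = 0 <;> simp only [hi0, if_true, if_false]
        · exact hw
        · exact hw'
      · simp
      · simp
    · intro w hw _
      exact ⟨w, hD w hw, fun _ => w, fun i hi j hj _ => by omega, fun i hi => by omega,
        fun i _ => hw, rfl, rfl⟩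
  | succ m ih =>
    intro C D g hCD hg hgp hno
    classical
    -- vertices of `C` which end a path on `m + 2` vertices from `C`
    set Cs : Set V := {c | c ∈ C ∧ ∃ u ∈ C, IsP G (C ∪ D) (m + 2) u c} with hCs
    obtain ⟨X, hX⟩ : ∃ X : Set V, Maximal (fun X : Set V => X ⊆ Cs ∧
        ∀ x ∈ X, ∀ y ∈ X, ¬ G.Adj x y) X := by
      have hfin : (Set.univ : Set (Set V)).Finite := Set.toFinite _
      have : ({X : Set V | X ⊆ Cs ∧ ∀ x ∈ X, ∀ y ∈ X, ¬ G.Adj x y}).Finite := hfin.subset (Set.subset_univ _)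
      obtain ⟨X, hX⟩ := this.exists_maximal ⟨∅, Set.empty_subset _, fun x hx => absurd hx (Set.notMem_empty x)⟩
      exact ⟨X, hX⟩
    have hXs : X ⊆ Cs := hX.prop.1
    have hXi : ∀ x ∈ X, ∀ y ∈ X, ¬ G.Adj x y := hX.prop.2
    have hXmax : ∀ y ∈ Cs, y ∉ X → ∃ x ∈ X, G.Adj y x := by
      intro y hy hyX
      by_contra hcon
      push Not at hcon
      have h1 : insert y X ⊆ X := by
        refine hX.le_of_ge ⟨Set.insert_subset hy hXs, ?_⟩ (Set.subset_insert _ _)
        intro a ha b hb hab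
        rcases ha with rfl | ha <;> rcases hb with rfl | hb
        · exact G.loopless.irrefl _ hab
        · exact hcon b hb hab
        · exact hcon a ha hab.symm
        · exact hXi a ha b hb hab
      exact hyX (h1 (Set.mem_insert _ _))
    have hXC : X ⊆ C := fun x hx => (hXs hx).1
    set Z : Set V := {d | d ∈ D ∧ g d = m} with hZ
    set C' : Set V := C \ X with hC'
    set D' : Set V := D \ Z with hD'
    have hW : C' ∪ D' ⊆ C ∪ D := Set.union_subset_union Set.sdiff_subset Set.sdiff_subset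
    have hXW' : ∀ x ∈ X, x ∉ C' ∪ D' := by
      rintro x hx (h1 | h1)
      · exact h1.2 hx
      · exact Set.disjoint_left.1 hCD (hXC hx) h1.1
    obtain ⟨ψ, hψ1, hψ2, hψ3⟩ := ih C' D' g (hCD.mono Set.sdiff_subset Set.sdiff_subset)
      (fun d hd => by
        have h1 := hg d hd.1
        have h2 : g d ≠ m := fun h => hd.2 ⟨hd.1, h⟩
        omega)
      (fun d hd d' hd' h => hgp d hd.1 d' hd'.1 h)
      (by
        intro u hu v hv hp
        have hvs : v ∈ Cs := ⟨hv.1, u, hu.1, hp.mono hW⟩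
        obtain ⟨x, hx, hvx⟩ := hXmax v hvs hv.2
        exact hno u hu.1 x (hXC hx) (hp.snoc hvx (hXW' x hx) hW (Or.inl (hXC hx))))
    set bad : V → Prop := fun w => ∃ v ∈ C' ∪ D', G.Adj w v ∧ ψ v = m with hbad
    -- a bad vertex outside ends a path on `m + 2` vertices
    have hbadP : ∀ w ∈ C ∪ D, w ∉ C' ∪ D' → bad w → ∃ u ∈ C, IsP G (insert w (C' ∪ D')) (m + 2) u w := by
      rintro w hw hw' ⟨v, hv, hwv, hψv⟩
      obtain ⟨u, hu, hp⟩ := hψ3 v hv hψv
      exact ⟨u, hu.1, hp.snoc hwv.symm hw' (Set.subset_insert _ _) (Set.mem_insert _ _)⟩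
    have hcase : ∀ w ∈ C ∪ D, w ∈ X ∨ (w ∈ Z ∧ w ∉ X ∧ w ∉ C' ∪ D') ∨ (w ∈ C' ∪ D' ∧ w ∉ X ∧ w ∉ Z) := by
      rintro w (hw | hw)
      · by_cases hwX : w ∈ X
        · exact Or.inl hwX
        · refine Or.inr (Or.inr ⟨Or.inl ⟨hw, hwX⟩, hwX, fun h => ?_⟩)
          exact Set.disjoint_left.1 hCD hw h.1
      · have hwX : w ∉ X := fun h => Set.disjoint_left.1 hCD (hXC h) hw
        by_cases hwZ : w ∈ Z
        · refine Or.inr (Or.inl ⟨hwZ, hwX, ?_⟩)
          rintro (h1 | h1)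
          · exact Set.disjoint_left.1 hCD h1.1 hw
          · exact h1.2 hwZ
        · exact Or.inr (Or.inr ⟨Or.inr ⟨hw, hwZ⟩, hwX, hwZ⟩)
    set Ψ : V → ℕ := fun w => if w ∈ X then m + 1 else if w ∈ Z then (if bad w then m + 1 else m)
      else ψ w with hΨ
    have hΨX : ∀ w ∈ X, Ψ w = m + 1 := fun w hw => by simp only [hΨ, hw, if_true]
    have hΨZ1 : ∀ w ∈ Z, w ∉ X → bad w → Ψ w = m + 1 := fun w hw hwX hb => by
      simp only [hΨ, hw, hwX, hb, if_true, if_false]
    have hΨZ2 : ∀ w ∈ Z, w ∉ X → ¬ bad w → Ψ w = m := fun w hw hwX hb => by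
      simp only [hΨ, hw, hwX, hb, if_true, if_false]
    have hΨr : ∀ w, w ∉ X → w ∉ Z → Ψ w = ψ w := fun w hwX hwZ => by
      simp only [hΨ, hwX, hwZ, if_false]
    -- no bad vertex of `Z` is adjacent to `X`
    have hZX : ∀ w ∈ Z, w ∉ C' ∪ D' → bad w → ∀ x ∈ X, ¬ G.Adj w x := by
      intro w hw hw' hb x hx hwx
      obtain ⟨u, hu, hp⟩ := hbadP w (Or.inr hw.1) hw' hb
      have hxW : x ∉ insert w (C' ∪ D') := by
        rintro (h1 | h1)
        · exact hwx.ne h1.symm
        · exact hXW' x hx h1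
      exact hno u hu x (hXC hx) (hp.snoc hwx hxW
        (Set.insert_subset (Or.inr hw.1) hW) (Or.inl (hXC hx)))
    have hprop : ∀ w ∈ C ∪ D, ∀ w' ∈ C ∪ D, G.Adj w w' → Ψ w ≤ Ψ w' → Ψ w ≠ Ψ w' := by
      intro w hw w' hw' hadj hle heq
      rcases hcase w hw with h1 | ⟨h1, h1X, h1W⟩ | ⟨h1, h1X, h1Z⟩ <;>
        rcases hcase w' hw' with h2 | ⟨h2, h2X, h2W⟩ | ⟨h2, h2X, h2Z⟩
      · exact hXi w h1 w' h2 hadj
      · by_cases hb : bad w'
        · exact hZX w' h2 h2W hb w h1 hadj.symm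
        · rw [hΨX w h1, hΨZ2 w' h2 h2X hb] at heq; omega
      · rw [hΨX w h1, hΨr w' h2X h2Z] at heq
        have := hψ1 w' h2; omega
      · by_cases hb : bad w
        · exact hZX w h1 h1W hb w' h2 hadj
        · rw [hΨX w' h2, hΨZ2 w h1 h1X hb] at heq; omega
      · exact hgp w h1.1 w' h2.1 hadj (h1.2.trans h2.2.symm)
      · by_cases hb : bad w
        · rw [hΨZ1 w h1 h1X hb, hΨr w' h2X h2Z] at heq
          have := hψ1 w' h2; omega
        · rw [hΨZ2 w h1 h1X hb, hΨr w' h2X h2Z] at heq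
          exact hb ⟨w', h2, hadj, heq.symm⟩
      · rw [hΨX w' h2, hΨr w h1X h1Z] at heq
        have := hψ1 w h1; omega
      · by_cases hb : bad w'
        · rw [hΨZ1 w' h2 h2X hb, hΨr w h1X h1Z] at heq
          have := hψ1 w h1; omega
        · rw [hΨZ2 w' h2 h2X hb, hΨr w h1X h1Z] at heq
          exact hb ⟨w, h1, hadj.symm, heq⟩
      · rw [hΨr w h1X h1Z, hΨr w' h2X h2Z] at heq
        exact hψ2 w h1 w' h2 hadj heq
    refine ⟨Ψ, ?_, ?_, ?_⟩
    · intro w hw
      rcases hcase w hw with h1 | ⟨h1, h1X, h1W⟩ | ⟨h1, h1X, h1Z⟩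
      · rw [hΨX w h1]; omega
      · by_cases hb : bad w
        · rw [hΨZ1 w h1 h1X hb]; omega
        · rw [hΨZ2 w h1 h1X hb]; omega
      · rw [hΨr w h1X h1Z]; have := hψ1 w h1; omega
    · intro w hw w' hw' hadj heq
      exact hprop w hw w' hw' hadj heq.le heq
    · intro w hw hwm
      rcases hcase w hw with h1 | ⟨h1, h1X, h1W⟩ | ⟨h1, h1X, h1Z⟩
      · obtain ⟨u, hu, hp⟩ := (hXs h1).2
        exact ⟨u, hu, hp⟩
      · by_cases hb : bad w
        · obtain ⟨u, hu, hp⟩ := hbadP w hw h1W hb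
          exact ⟨u, hu, hp.mono (Set.insert_subset hw hW)⟩
        · rw [hΨZ2 w h1 h1X hb] at hwm; omega
      · rw [hΨr w h1X h1Z] at hwm; have := hψ1 w h1; omega

/-- Colouring when no path on `m + 2` vertices has ends of the same class. -/
theorem classes [Finite V] (G : SimpleGraph V) (m : ℕ) (f : V → ℕ) (W : Set V)
    (hno : ∀ u ∈ W, ∀ v ∈ W, f u = f v → ¬ IsP G W (m + 2) u v) (T : ℕ) :
    ∃ ψ : V → ℕ, (∀ w ∈ W, f w < T → ψ w < T + m) ∧
      ∀ w ∈ W, f w < T → ∀ w' ∈ W, f w' < T → G.Adj w w' → ψ w ≠ ψ w' := by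
  classical
  induction T with
  | zero => exact ⟨fun _ => 0, fun w _ h => absurd h (Nat.not_lt_zero _),
      fun w _ h => absurd h (Nat.not_lt_zero _)⟩
  | succ T ih =>
    obtain ⟨g, hg1, hg2⟩ := ih
    set C : Set V := {w | w ∈ W ∧ f w = T} with hC
    set D : Set V := {w | w ∈ W ∧ f w < T ∧ g w < m} with hD
    have hCD : Disjoint C D := Set.disjoint_left.2 fun w h1 h2 => by
      have := h1.2; have := h2.2.1; omega
    have hsub : C ∪ D ⊆ W := by
      rintro w (h | h)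
      · exact h.1
      · exact h.1
    obtain ⟨ψ, hψ1, hψ2, -⟩ := key G m C D g hCD (fun d hd => hd.2.2)
      (fun d hd d' hd' h => hg2 d hd.1 hd.2.1 d' hd'.1 hd'.2.1 h)
      (fun u hu v hv hp => hno u hu.1 v hv.1 (hu.2.trans hv.2.symm) (hp.mono hsub))
    have hcase : ∀ w ∈ W, f w < T + 1 → (w ∈ C ∪ D) ∨ (w ∉ C ∪ D ∧ f w < T ∧ m ≤ g w) := by
      intro w hw hfw
      by_cases h1 : f w = T
      · exact Or.inl (Or.inl ⟨hw, h1⟩)
      · by_cases h2 : g w < m
        · exact Or.inl (Or.inr ⟨hw, by omega, h2⟩)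
        · refine Or.inr ⟨?_, by omega, by omega⟩
          rintro (h | h)
          · exact h1 h.2
          · exact h2 h.2.2
    refine ⟨fun w => if w ∈ C ∪ D then ψ w else g w + 1, ?_, ?_⟩
    · intro w hw hfw
      rcases hcase w hw hfw with h1 | ⟨h1, h2, h3⟩
      · simp only [h1, if_true]; have := hψ1 w h1; omega
      · simp only [h1, if_false]; have := hg1 w hw h2; omega
    · intro w hw hfw w' hw' hfw' hadj
      rcases hcase w hw hfw with h1 | ⟨h1, h2, h3⟩ <;>
        rcases hcase w' hw' hfw' with h1' | ⟨h1', h2', h3'⟩ <;>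
        simp only [h1, h1', if_true, if_false]
      · exact hψ2 w h1 w' h1' hadj
      · have := hψ1 w h1; omega
      · have := hψ1 w' h1'; omega
      · intro h; exact hg2 w hw h2 w' hw' h2' hadj (by omega)

end Pool.Agent.Work.MP_c9087a_co
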