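import Pool.Agent.Work.MP_c9087a_co.Ind

set_option autoImplicit false

namespace Pool.Agent.Work.MP_c9087a_co

variable {V : Type*}

/-- A family of colour stars for the proper colouring `σ` on the set `W`. -/
structure Stars (G : SimpleGraph V) (σ : V → ℕ) (W : Finset V) where
  T : ℕ
  c : ℕ → V
  f : V → ℕ
  Y : Finset V
  R : Finset V
  τ : V → ℕ
  hT : 0 < T
  hY : Y ⊆ W
  hR : R ⊆ W
  hYi : ∀ x ∈ Y, ∀ y ∈ Y, ¬ G.Adj x y
  hf : ∀ r ∈ R, f r < T ∧ c (f r) ∈ Y ∧ G.Adj (c (f r)) r
  hYR : Disjoint Y R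
  hσ : ∀ a ∈ W.image σ, ∃ w, (w ∈ Y ∨ w ∈ R) ∧ σ w = a
  hle : T ≤ (W.image σ).card
  hτ1 : ∀ w ∈ W, τ w < (W.image σ).card - T + 1
  hτ2 : ∀ w ∈ W, ∀ w' ∈ W, G.Adj w w' → τ w ≠ τ w'

theorem exists_stars (G : SimpleGraph V) (σ : V → ℕ) (hσ : ∀ u v, G.Adj u v → σ u ≠ σ v)
    (n : ℕ) : ∀ W : Finset V, W.card = n → W.Nonempty →
    Nonempty (Stars G σ W) := by
  classical
  induction n using Nat.strong_induction_on with
  | _ n ih =>
  intro W hWn hW
  -- the closed neighbourhood inside `W`
  set N : V → Finset V := fun v => W.filter fun w => w = v ∨ G.Adj v w with hN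
  obtain ⟨v, hv, hmax⟩ := Finset.exists_max_image W (fun v => ((N v).image σ).card) hW
  set A : Finset ℕ := (N v).image σ with hA
  have hvN : v ∈ N v := by simp [hN, hv]
  have hvA : σ v ∈ A := Finset.mem_image_of_mem _ hvN
  have hne : Nonempty V := ⟨v⟩
  set W' : Finset V := W.filter fun w => σ w ∉ A with hW'
  have hW'W : W' ⊆ W := Finset.filter_subset _ _
  -- representatives
  have hrep : ∀ a ∈ A.erase (σ v), ∃ r ∈ W, σ r = a ∧ G.Adj v r := by
    intro a ha
    rw [Finset.mem_erase, hA, Finset.mem_image] at ha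
    obtain ⟨hne, r, hr, hra⟩ := ha
    simp only [hN, Finset.mem_filter] at hr
    rcases hr.2 with h1 | h1
    · exact absurd (by rw [← hra, h1]) hne
    · exact ⟨r, hr.1, hra, h1⟩
  choose! rep hrep1 hrep2 hrep3 using hrep
  set R₀ : Finset V := (A.erase (σ v)).image rep with hR₀
  have hR₀' : ∀ r ∈ R₀, r ∈ W ∧ G.Adj v r ∧ σ r ∈ A ∧ σ r ≠ σ v := by
    intro r hr
    rw [hR₀, Finset.mem_image] at hr
    obtain ⟨a, ha, rfl⟩ := hr
    refine ⟨hrep1 a ha, hrep3 a ha, ?_, ?_⟩
    · rw [hrep2 a ha]; exact Finset.mem_of_mem_erase ha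
    · rw [hrep2 a ha]; exact Finset.ne_of_mem_erase ha
  have hR₀σ : R₀.image σ = A.erase (σ v) := by
    ext a
    simp only [hR₀, Finset.mem_image]
    constructor
    · rintro ⟨r, ⟨b, hb, rfl⟩, rfl⟩
      rw [hrep2 b hb]; exact hb
    · intro ha
      exact ⟨rep a, ⟨a, ha, rfl⟩, hrep2 a ha⟩
  have hAW : A ⊆ W.image σ := Finset.image_subset_image (Finset.filter_subset _ _)
  -- enumeration of `A`
  obtain ⟨e, he1, he2⟩ : ∃ e : ℕ → ℕ, (∀ a ∈ A, e a < A.card) ∧
      ∀ a ∈ A, ∀ b ∈ A, e a = e b → a = b := by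
    refine ⟨fun a => if h : a ∈ A then (A.equivFin ⟨a, h⟩ : ℕ) else 0, ?_, ?_⟩
    · intro a ha
      simp only [ha, dif_pos]
      exact (A.equivFin ⟨a, ha⟩).2
    · intro a ha b hb h
      simp only [ha, hb, dif_pos] at h
      have := A.equivFin.injective (Fin.ext h)
      simpa using this
  by_cases hW'e : W'.Nonempty
  · have hcard : W'.card < n := by
      rw [← hWn]
      refine Finset.card_lt_card (Finset.ssubset_iff_subset_ne.2 ⟨hW'W, fun h => ?_⟩)
      have : v ∈ W' := h ▸ hv
      exact (Finset.mem_filter.1 this).2 hvA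
    obtain ⟨S⟩ := ih W'.card hcard W' rfl hW'e
    have hdisj : Disjoint A (W'.image σ) := by
      rw [Finset.disjoint_left]
      intro a ha ha'
      rw [Finset.mem_image] at ha'
      obtain ⟨w, hw, rfl⟩ := ha'
      exact (Finset.mem_filter.1 hw).2 ha
    have hWσ : W.image σ = A ∪ W'.image σ := by
      ext a
      constructor
      · intro h
        obtain ⟨w, hw, rfl⟩ := Finset.mem_image.1 h
        by_cases h : σ w ∈ A
        · exact Finset.mem_union_left _ h
        · exact Finset.mem_union_right _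
            (Finset.mem_image_of_mem _ (Finset.mem_filter.2 ⟨hw, h⟩))
      · intro h
        rcases Finset.mem_union.1 h with h | h
        · exact hAW h
        · obtain ⟨w, hw, rfl⟩ := Finset.mem_image.1 h
          exact Finset.mem_image_of_mem _ (hW'W hw)
    have hcardσ : (W.image σ).card = A.card + (W'.image σ).card := by
      rw [hWσ, Finset.card_union_of_disjoint hdisj]
    have hvW' : v ∉ W' := fun h => (Finset.mem_filter.1 h).2 hvA
    have hR₀W' : ∀ r ∈ R₀, r ∉ W' := fun r hr h => (Finset.mem_filter.1 h).2 (hR₀' r hr).2.2.1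
    have hvadj : ∀ w ∈ W', ¬ G.Adj v w := by
      intro w hw hvw
      refine (Finset.mem_filter.1 hw).2 (Finset.mem_image_of_mem _ ?_)
      simp only [hN, Finset.mem_filter]
      exact ⟨hW'W hw, Or.inr hvw⟩
    have hA1 : 1 ≤ A.card := Finset.card_pos.2 ⟨_, hvA⟩
    -- a colour of `A` which is missing at a vertex outside
    have hmiss : ∀ z ∈ W', ∃ a ∈ A, ∀ w ∈ W, G.Adj z w → σ w ≠ a := by
      intro z hz
      by_contra hcon
      push Not at hcon
      have h1 : insert (σ z) A ⊆ (N z).image σ := by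
        intro a ha
        rw [Finset.mem_insert] at ha
        rcases ha with rfl | ha
        · exact Finset.mem_image_of_mem _ (Finset.mem_filter.2 ⟨hW'W hz, Or.inl rfl⟩)
        · obtain ⟨w, hw, hzw, hwa⟩ := hcon a ha
          rw [Finset.mem_image]
          refine ⟨w, ?_, hwa⟩
          simp only [hN, Finset.mem_filter]
          exact ⟨hw, Or.inr hzw⟩
      have h2 := Finset.card_le_card h1
      rw [Finset.card_insert_of_notMem (Finset.mem_filter.1 hz).2] at h2
      have h3 : ((N z).image σ).card ≤ A.card := hmax z (hW'W hz)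
      omega
    choose! μ hμ1 hμ2 using hmiss
    have hST := S.hT
    have hSle := S.hle
    refine ⟨⟨S.T + 1, fun i => if i = S.T then v else S.c i, fun w => if w ∈ R₀ then S.T else S.f w,
      insert v S.Y, R₀ ∪ S.R,
      fun w => if σ w ∈ A then e (σ w) else if S.τ w = (W'.image σ).card - S.T then e (μ w)
        else A.card + S.τ w, ?_, ?_, ?_, ?_, ?_, ?_, ?_, ?_, ?_, ?_⟩⟩
    · omega
    · exact Finset.insert_subset hv (S.hY.trans hW'W)
    · refine Finset.union_subset (fun r hr => (hR₀' r hr).1) (S.hR.trans hW'W)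
    · intro x hx y hy hxy
      rw [Finset.mem_insert] at hx hy
      rcases hx with rfl | hx <;> rcases hy with rfl | hy
      · exact G.loopless.irrefl _ hxy
      · exact hvadj y (S.hY hy) hxy
      · exact hvadj x (S.hY hx) hxy.symm
      · exact S.hYi x hx y hy hxy
    · intro r hr
      by_cases hr0 : r ∈ R₀
      · simp only [hr0, if_true]
        exact ⟨Nat.lt_succ_self _, Finset.mem_insert_self _ _, (hR₀' r hr0).2.1⟩
      · have hrS : r ∈ S.R := (Finset.mem_union.1 hr).resolve_left hr0
        obtain ⟨h1, h2, h3⟩ := S.hf r hrS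
        have hne : S.f r ≠ S.T := h1.ne
        simp only [hr0, if_false, hne]
        exact ⟨h1.trans (Nat.lt_succ_self _), Finset.mem_insert_of_mem h2, h3⟩
    · rw [Finset.disjoint_left]
      intro x hx hx'
      rw [Finset.mem_insert] at hx
      rw [Finset.mem_union] at hx'
      rcases hx with rfl | hx <;> rcases hx' with hx' | hx'
      · exact (hR₀' _ hx').2.2.2 rfl
      · exact hvW' (S.hR hx')
      · exact hR₀W' x hx' (S.hY hx)
      · exact Finset.disjoint_left.1 S.hYR hx hx'
    · intro a ha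
      rw [hWσ, Finset.mem_union] at ha
      rcases ha with ha | ha
      · by_cases hav : a = σ v
        · exact ⟨v, Or.inl (Finset.mem_insert_self _ _), hav.symm⟩
        · have h1 : a ∈ A.erase (σ v) := Finset.mem_erase.2 ⟨hav, ha⟩
          exact ⟨rep a, Or.inr (Finset.mem_union_left _ (Finset.mem_image_of_mem _ h1)), hrep2 a h1⟩
      · obtain ⟨w, hw, hwa⟩ := S.hσ a ha
        exact ⟨w, hw.imp (fun h => Finset.mem_insert_of_mem h) (fun h => Finset.mem_union_right _ h), hwa⟩
    · rw [hcardσ]; omega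
    · intro w hw
      rw [hcardσ]
      by_cases h1 : σ w ∈ A
      · simp only [h1, if_true]
        have := he1 _ h1; omega
      · have hwW' : w ∈ W' := Finset.mem_filter.2 ⟨hw, h1⟩
        by_cases h2 : S.τ w = (W'.image σ).card - S.T
        · simp only [h1, h2, if_true, if_false]
          have := he1 _ (hμ1 w hwW'); omega
        · simp only [h1, h2, if_false]
          have := S.hτ1 w hwW'; omega
    · intro w hw w' hw' hadj
      by_cases h1 : σ w ∈ A <;> by_cases h1' : σ w' ∈ A
      · simp only [h1, h1', if_true]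
        intro h
        exact hσ w w' hadj (he2 _ h1 _ h1' h)
      · have hwW' : w' ∈ W' := Finset.mem_filter.2 ⟨hw', h1'⟩
        by_cases h2 : S.τ w' = (W'.image σ).card - S.T
        · simp only [h1, h1', h2, if_true, if_false]
          intro h
          exact hμ2 w' hwW' w hw hadj.symm (he2 _ h1 _ (hμ1 w' hwW') h)
        · simp only [h1, h1', h2, if_true, if_false]
          have := he1 _ h1; omega
      · have hwW' : w ∈ W' := Finset.mem_filter.2 ⟨hw, h1⟩
        by_cases h2 : S.τ w = (W'.image σ).card - S.T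
        · simp only [h1, h1', h2, if_true, if_false]
          intro h
          exact hμ2 w hwW' w' hw' hadj (he2 _ h1' _ (hμ1 w hwW') h.symm)
        · simp only [h1, h1', h2, if_true, if_false]
          have := he1 _ h1'; omega
      · have hwW' : w ∈ W' := Finset.mem_filter.2 ⟨hw, h1⟩
        have hwW'' : w' ∈ W' := Finset.mem_filter.2 ⟨hw', h1'⟩
        have hp := S.hτ2 w hwW' w' hwW'' hadj
        by_cases h2 : S.τ w = (W'.image σ).card - S.T <;>
          by_cases h2' : S.τ w' = (W'.image σ).card - S.T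
        · exact absurd (h2.trans h2'.symm) hp
        · simp only [h1, h1', h2, h2', if_true, if_false]
          have := he1 _ (hμ1 w hwW'); omega
        · simp only [h1, h1', h2, h2', if_true, if_false]
          have := he1 _ (hμ1 w' hwW''); omega
        · simp only [h1, h1', h2, h2', if_false]
          omega
  · -- one star
    have hWA : ∀ w ∈ W, σ w ∈ A := by
      intro w hw
      by_contra h
      exact hW'e ⟨w, Finset.mem_filter.2 ⟨hw, h⟩⟩
    have hWσ : W.image σ = A := by
      refine Finset.Subset.antisymm ?_ hAW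
      intro a ha
      obtain ⟨w, hw, rfl⟩ := Finset.mem_image.1 ha
      exact hWA w hw
    have hA1 : 1 ≤ A.card := Finset.card_pos.2 ⟨_, hvA⟩
    refine ⟨⟨1, fun _ => v, fun _ => 0, {v}, R₀, fun w => e (σ w), Nat.one_pos, ?_, ?_, ?_, ?_, ?_, ?_, ?_, ?_, ?_⟩⟩
    · exact Finset.singleton_subset_iff.2 hv
    · exact fun r hr => (hR₀' r hr).1
    · intro x hx y hy hxy
      rw [Finset.mem_singleton] at hx hy
      rw [hx, hy] at hxy
      exact G.loopless.irrefl _ hxy
    · intro r hr
      exact ⟨Nat.one_pos, Finset.mem_singleton_self _, (hR₀' r hr).2.1⟩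
    · rw [Finset.disjoint_singleton_left]
      intro h
      exact (hR₀' v h).2.2.2 rfl
    · intro a ha
      rw [hWσ] at ha
      by_cases hav : a = σ v
      · exact ⟨v, Or.inl (Finset.mem_singleton_self _), hav.symm⟩
      · have h1 : a ∈ A.erase (σ v) := Finset.mem_erase.2 ⟨hav, ha⟩
        exact ⟨rep a, Or.inr (Finset.mem_image_of_mem _ h1), hrep2 a h1⟩
    · rw [hWσ]; exact hA1
    · intro w hw
      rw [hWσ]
      have := he1 _ (hWA w hw); omega
    · intro w hw w' hw' hadj h
      exact hσ w w' hadj (he2 _ (hWA w hw) _ (hWA w' hw') h)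

end Pool.Agent.Work.MP_c9087a_co
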