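import Pool.Agent.Work.MP_c9087a_co.Defs
import Pool.Agent.Work.MP_c9087a_co.Stars

set_option autoImplicit false

namespace Pool.Agent.Work.MP_c9087a_co

variable {V : Type*}

lemma chi_le (G : SimpleGraph V) (k : ℕ) (ψ : V → ℕ) (h1 : ∀ v, ψ v < k)
    (h2 : ∀ u v, G.Adj u v → ψ u ≠ ψ v) : chi G ≤ k := by
  have hc : G.Colorable k := by
    refine ⟨SimpleGraph.Coloring.mk (fun v => (⟨ψ v, h1 v⟩ : Fin k)) ?_⟩
    intro u v huv h
    exact h2 u v huv (Fin.ext_iff.1 h)
  exact ENat.toNat_le_of_le_natCast hc.chromaticNumber_le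

/-- a cycle from a path and a vertex joined to both ends -/
lemma not_isP (G : SimpleGraph V) (m : ℕ) (hfree : (SimpleGraph.cycleGraph (m + 3)).Free G)
    (W : Set V) (u v x : V) (hx : x ∉ W) (hxu : G.Adj x u) (hxv : G.Adj x v) :
    ¬ IsP G W (m + 2) u v := by
  rintro ⟨p, h1, h2, h3, h4, h5⟩
  apply hfree
  have h5' : p (m + 1) = v := h5
  set q : Fin (m + 3) → V := fun i => if (i : ℕ) < m + 2 then p i else x with hq
  have hq1 : ∀ i : Fin (m + 3), (i : ℕ) < m + 2 → q i = p i := fun i hi => by
    simp only [hq, hi, if_true]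
  have hq2 : ∀ i : Fin (m + 3), ¬ (i : ℕ) < m + 2 → q i = x := fun i hi => by
    simp only [hq, hi, if_false]
  have hne : ∀ i < m + 2, p i ≠ x := fun i hi he => hx (he ▸ h3 i hi)
  have hadj : ∀ i j : Fin (m + 3), ((i - j : Fin (m + 3)) : ℕ) = 1 → G.Adj (q i) (q j) := by
    intro i j hij
    have hi := i.2
    have hj := j.2
    rcases le_or_gt j i with hji | hji
    · rw [Fin.coe_sub_iff_le.2 hji] at hij
      have hji' : (j : ℕ) ≤ i := hji
      rw [hq1 j (by omega)]
      by_cases h : (i : ℕ) < m + 2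
      · rw [hq1 i h]
        have h6 : (i : ℕ) = j + 1 := by omega
        rw [h6]
        exact (h2 j (by omega)).symm
      · rw [hq2 i h]
        have h6 : (j : ℕ) = m + 1 := by omega
        rw [h6, h5']
        exact hxv
    · rw [Fin.coe_sub_iff_lt.2 hji] at hij
      have hji' : (i : ℕ) < j := hji
      have h6 : (i : ℕ) = 0 := by omega
      rw [hq2 j (by omega), hq1 i (by omega), h6, h4]
      exact hxu.symm
  refine ⟨⟨⟨q, ?_⟩, ?_⟩⟩
  · intro i j hij
    rw [SimpleGraph.cycleGraph_adj'] at hij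
    rcases hij with h | h
    · exact hadj i j h
    · exact (hadj j i h).symm
  · intro i j hij
    have hij' : q i = q j := hij
    have hi := i.2
    have hj := j.2
    by_cases h : (i : ℕ) < m + 2 <;> by_cases h' : (j : ℕ) < m + 2
    · rw [hq1 i h, hq1 j h'] at hij'
      exact Fin.ext (h1 i h j h' hij')
    · rw [hq1 i h, hq2 j h'] at hij'
      exact absurd hij' (hne i h)
    · rw [hq2 i h, hq1 j h'] at hij'
      exact absurd hij'.symm (hne j h')
    · exact Fin.ext (by omega)

theorem main [Finite V] [Nonempty V] (G : SimpleGraph V) (ℓ : ℕ) (hℓ : 2 ≤ ℓ)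
    (hfree : (SimpleGraph.cycleGraph (ℓ + 1)).Free G) :
    (chi G : ℤ) - ℓ ≤ discrepancy G := by
  classical
  have := Fintype.ofFinite V
  obtain ⟨m, rfl⟩ : ∃ m, ℓ = m + 2 := ⟨ℓ - 2, by omega⟩
  refine le_csInf ?_ ?_
  · obtain ⟨c⟩ := G.colorable_of_fintype
    refine ⟨_, SimpleGraph.Coloring.mk (fun v => ((c v : Fin _) : ℕ)) ?_, rfl⟩
    intro u v huv h
    exact c.valid huv (Fin.ext h)
  · rintro _ ⟨σ, rfl⟩
    have hσ : ∀ u v, G.Adj u v → σ u ≠ σ v := fun u v huv => σ.valid huv
    obtain ⟨S⟩ := exists_stars G σ hσ _ Finset.univ rfl Finset.univ_nonempty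
    -- colour the representatives
    have hno : ∀ u ∈ (S.R : Set V), ∀ v ∈ (S.R : Set V), S.f u = S.f v →
        ¬ IsP G (S.R : Set V) (m + 2) u v := by
      intro u hu v hv huv
      obtain ⟨h1, h2, h3⟩ := S.hf u hu
      obtain ⟨h1', h2', h3'⟩ := S.hf v hv
      refine not_isP G m hfree _ u v (S.c (S.f u)) ?_ h3 (huv ▸ h3')
      exact fun h => Finset.disjoint_left.1 S.hYR h2 h
    obtain ⟨ψ, hψ1, hψ2⟩ := classes G m S.f (S.R : Set V) hno S.T
    set H : Finset V := S.Y ∪ S.R with hH
    have hχH : chi (G.induce (H : Set V)) ≤ S.T + m + 1 := by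
      refine chi_le _ _ (fun v => if (v : V) ∈ S.R then ψ v else S.T + m) ?_ ?_
      · intro v
        by_cases h : (v : V) ∈ S.R
        · simp only [h, if_true]
          have := hψ1 v h (S.hf v h).1; omega
        · simp only [h, if_false]; omega
      · intro u v huv
        have huv' : G.Adj (u : V) (v : V) := huv
        have hmem : ∀ w : (H : Set V), (w : V) ∉ S.R → (w : V) ∈ S.Y := by
          intro w hw
          exact (Finset.mem_union.1 w.2).resolve_right hw
        by_cases h : (u : V) ∈ S.R <;> by_cases h' : (v : V) ∈ S.R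
        · simp only [h, h', if_true]
          exact hψ2 u h (S.hf u h).1 v h' (S.hf v h').1 huv'
        · simp only [h, h', if_true, if_false]
          have := hψ1 u h (S.hf u h).1; omega
        · simp only [h, h', if_true, if_false]
          have := hψ1 v h' (S.hf v h').1; omega
        · exact absurd huv' (S.hYi u (hmem u h) v (hmem v h'))
    have hχG : chi G ≤ ((Finset.univ : Finset V).image σ).card - S.T + 1 :=
      chi_le G _ S.τ (fun v => S.hτ1 v (Finset.mem_univ _))
        (fun u v huv => S.hτ2 u (Finset.mem_univ _) v (Finset.mem_univ _) huv)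
    have hHσ : (H.image σ).card = ((Finset.univ : Finset V).image σ).card := by
      congr 1
      refine Finset.Subset.antisymm (Finset.image_subset_image (Finset.subset_univ _)) ?_
      intro a ha
      obtain ⟨w, hw, hwa⟩ := S.hσ a ha
      rw [← hwa]
      refine Finset.mem_image_of_mem _ ?_
      rw [hH, Finset.mem_union]
      exact hw
    have hHne : H.Nonempty := by
      have h1 : 0 < (H.image σ).card := by
        rw [hHσ]
        exact Finset.card_pos.2 (Finset.univ_nonempty.image σ)
      exact (Finset.card_pos.1 h1).of_image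
    have hbdd : BddAbove {x : ℤ | ∃ S : Finset V, S.Nonempty ∧
        x = ((S.image σ).card : ℤ) - (chi (G.induce (S : Set V)) : ℤ)} := by
      refine ⟨(Fintype.card V : ℤ), ?_⟩
      rintro x ⟨S, -, rfl⟩
      have h1 : (S.image σ).card ≤ Fintype.card V :=
        Finset.card_image_le.trans (Finset.card_le_univ _)
      have h2 : (0 : ℤ) ≤ (chi (G.induce (S : Set V)) : ℤ) := Int.natCast_nonneg _
      have h3 : ((S.image σ).card : ℤ) ≤ Fintype.card V := by exact_mod_cast h1
      linarith
    refine le_trans ?_ (le_csSup hbdd ⟨H, hHne, rfl⟩)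
    have hle := S.hle
    have h7 : ((H.image σ).card : ℤ) = (((Finset.univ : Finset V).image σ).card : ℤ) := by
      exact_mod_cast hHσ
    rw [h7]
    omega

end Pool.Agent.Work.MP_c9087a_co
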